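import Pool.Agent.H.MP_a7dadb_al.D

namespace Pool.Agent.Results.MP_a7dadb_al.Counter

open Pool.Agent.H.MP_a7dadb_al

theorem result : ∃ (A : Type) (_ : Ring A), (∀ r : A, ∃ u : Aˣ, r * u * r = r) ∧
    ∃ a : A, ∀ w : A, ∃ k : ℕ, 1 ≤ k ∧ a ^ k * w ^ k * a ^ k ≠ a ^ k := by
  refine ⟨R, inferInstance, fun r => ?_, ⟨_, a_mem⟩, fun w => ?_⟩
  · obtain ⟨u, hu, v, hv, h1, h2, h3⟩ := R_ur r.1 r.2
    exact ⟨⟨⟨u, hu⟩, ⟨v, hv⟩, Subtype.ext h1, Subtype.ext h2⟩, Subtype.ext h3⟩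
  · by_contra hc
    push Not at hc
    exact R_fail w.1 w.2 fun k hk => congrArg Subtype.val (hc k hk)

end Pool.Agent.Results.MP_a7dadb_al.Counter
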